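import Pool.Agent.Helper65.GN.BaseA

/-!
PP-00. The thick form of the separation property.

`ThickSep K L n`: for all finite `T ⊆ L` and `B ⊆ K` there is a map `w : G → {0, ..., n}` such that the chains
with steps in `T` in the sets `{w = i} B⁻¹` are bounded. If every finite subset of `K` lies in a subgroup of `K`
of finite asymptotic dimension, then `ThickSep K L n` implies `Sep K L (n + 1)`.
-/

set_option autoImplicit false

namespace Pool.Agent.Helper80.PP

open Pool.Agent.Helper65.TH (Chain AsdimLT)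
open Pool.Agent.Helper65.GN (Bdd Sep)

/-- the thick form of `Sep` -/
def ThickSep {G : Type*} [Group G] (K L : Subgroup G) (n : ℕ) : Prop :=
  ∀ T B : Finset G, (∀ s ∈ T, s ∈ L) → (∀ b ∈ B, b ∈ K) → ∃ (w : G → ℕ) (E : Finset G),
    (∀ x, w x ≤ n) ∧ ∀ i, Bdd (T : Set G) {x | ∃ b ∈ B, w (x * b) = i} E

section

variable {G : Type*} [Group G]

open Classical in
/-- the sets of the products of `j` elements -/
noncomputable def Sp (S : Finset G) : ℕ → Finset G
  | 0 => {1}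
  | (j + 1) => Finset.image₂ (fun a b => a * b) S (Sp S j)

theorem sp_mul_left {S : Finset G} {j : ℕ} {a b : G} (ha : a ∈ S) (hb : b ∈ Sp S j) :
    a * b ∈ Sp S (j + 1) := by
  classical
  rw [Sp]
  exact Finset.mem_image₂.2 ⟨a, ha, b, hb, rfl⟩

theorem sp_mono {S : Finset G} (h : (1 : G) ∈ S) {i j : ℕ} (hij : i ≤ j) :
    Sp S i ⊆ Sp S j := by
  induction j, hij using Nat.le_induction with
  | base => exact Finset.Subset.refl _
  | succ j hj ih =>
    intro a ha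
    have := sp_mul_left h (ih ha)
    rwa [one_mul] at this

theorem sp_sub {S : Finset G} {K : Subgroup G} (h : ∀ a ∈ S, a ∈ K) {j : ℕ} {a : G}
    (ha : a ∈ Sp S j) : a ∈ K := by
  classical
  induction j generalizing a with
  | zero =>
    rw [Sp, Finset.mem_singleton] at ha
    rw [ha]
    exact K.one_mem
  | succ j ih =>
    rw [Sp] at ha
    obtain ⟨c, hc, d, hd, rfl⟩ := Finset.mem_image₂.1 ha
    exact K.mul_mem (h c hc) (ih hd)

end

theorem sep_of_thick {G : Type*} [Group G] (K L : Subgroup G) (hLK : L ≤ K) {n : ℕ}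
    (hfin : ∀ S : Finset G, (∀ s ∈ S, s ∈ K) → ∃ (H : Subgroup G) (t : ℕ), (∀ s ∈ S, s ∈ H) ∧
      AsdimLT H t) (h : ThickSep K L n) : Sep K L (n + 1) := by
  classical
  intro T S hT hS
  set S1 : Finset G := insert 1 ((S ∪ T) ∪ (S ∪ T).image (fun s => s⁻¹)) with hS1
  have h1S : (1 : G) ∈ S1 := Finset.mem_insert_self _ _
  have hSS1 : ∀ s ∈ S ∪ T, s ∈ S1 := fun s hs =>
    Finset.mem_insert_of_mem (Finset.mem_union_left _ hs)
  have hSi : ∀ s ∈ S ∪ T, s⁻¹ ∈ S1 := fun s hs =>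
    Finset.mem_insert_of_mem (Finset.mem_union_right _ (Finset.mem_image_of_mem _ hs))
  have hSTK : ∀ s ∈ S ∪ T, s ∈ K := fun s hs => by
    rcases Finset.mem_union.1 hs with hs | hs
    · exact hS s hs
    · exact hLK (hT s hs)
  have hS1K : ∀ s ∈ S1, s ∈ K := by
    intro s hs
    rcases Finset.mem_insert.1 hs with rfl | hs
    · exact K.one_mem
    · rcases Finset.mem_union.1 hs with hs | hs
      · exact hSTK s hs
      · obtain ⟨u, hu, rfl⟩ := Finset.mem_image.1 hs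
        exact K.inv_mem (hSTK u hu)
  obtain ⟨H, t, hH, hHt⟩ := hfin S1 hS1K
  obtain ⟨w, E, hwn, hwE⟩ := h T (Sp S1 (2 * t)) hT (fun b hb => sp_sub hS1K hb)
  -- the finite set D
  set D : Finset G := (insert 1 (Finset.image₂ (fun a b => a * b) E T)).filter (fun d => d ∈ H)
    with hD
  have h1D : (1 : G) ∈ D := Finset.mem_filter.2 ⟨Finset.mem_insert_self _ _, H.one_mem⟩
  set F : Finset G := ((D ×ˢ S ×ˢ D).image (fun p => p.1 * p.2.1 * p.2.2⁻¹)) with hF
  have hFH : ∀ s ∈ F, s ∈ H := by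
    intro s hs
    obtain ⟨⟨d, u, d'⟩, hp, rfl⟩ := Finset.mem_image.1 hs
    simp only [Finset.mem_product] at hp
    exact H.mul_mem (H.mul_mem (Finset.mem_filter.1 hp.1).2
      (hH _ (hSS1 _ (Finset.mem_union_left _ hp.2.1))))
      (H.inv_mem (Finset.mem_filter.1 hp.2.2).2)
  obtain ⟨EA, A, hcov, hbd⟩ := AsdimLT.lift H hHt F hFH
  -- the thickened cover
  set V : Fin t → Set G := fun r => {y | ∃ d ∈ D, y * d⁻¹ ∈ A r} with hV
  set E1 : Finset G := (D ×ˢ EA ×ˢ D).image (fun p => p.1⁻¹ * p.2.1 * p.2.2) with hE1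
  have hVb : ∀ r, Bdd (S : Set G) (V r) E1 := by
    intro r x hx y hxy
    obtain ⟨d₀, hd₀, hx₀⟩ := hx
    have key : ∃ d ∈ D, Chain (F : Set G) (fun b => b ∈ A r) (x * d₀⁻¹) (y * d⁻¹) := by
      refine hxy.rec' (R := fun z => ∃ d ∈ D, Chain (F : Set G) (fun b => b ∈ A r) (x * d₀⁻¹)
        (z * d⁻¹)) ⟨d₀, hd₀, Chain.refl _ _ _⟩ ?_
      rintro a b _ ⟨d, hd, hch⟩ hs ⟨d', hd', hb'⟩
      refine ⟨d', hd', hch.step ?_ hb'⟩
      have e1 : (a * d⁻¹)⁻¹ * (b * d'⁻¹) = d * (a⁻¹ * b) * d'⁻¹ := by group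
      rw [e1, hF, Finset.mem_coe]
      exact Finset.mem_image.2 ⟨(d, a⁻¹ * b, d'), by
        simp only [Finset.mem_product]
        exact ⟨hd, hs, hd'⟩, rfl⟩
    obtain ⟨d, hd, hch⟩ := key
    have h2 := hbd r _ hx₀ _ hch
    have e2 : x⁻¹ * y = d₀⁻¹ * ((x * d₀⁻¹)⁻¹ * (y * d⁻¹)) * d := by group
    rw [e2]
    exact Finset.mem_image.2 ⟨(d₀, (x * d₀⁻¹)⁻¹ * (y * d⁻¹), d), by
      simp only [Finset.mem_product]
      exact ⟨hd₀, h2, hd⟩, rfl⟩
  -- the capped distance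
  have hex : ∀ i x, ∃ j, j = 2 * t ∨ ∃ b ∈ Sp S1 j, w (x * b) = i := fun i x => ⟨2 * t, Or.inl rfl⟩
  set δ : ℕ → G → ℕ := fun i x => Nat.find (hex i x) with hδ
  have hδle : ∀ i x, δ i x ≤ 2 * t := fun i x => Nat.find_min' (hex i x) (Or.inl rfl)
  have hδs : ∀ i x, δ i x < 2 * t → ∃ b ∈ Sp S1 (δ i x), w (x * b) = i := by
    intro i x hlt
    rcases Nat.find_spec (hex i x) with h1 | h1
    · change δ i x = 2 * t at h1
      omega
    · exact h1
  have hδL : ∀ i x y, (y⁻¹ * x) ∈ S1 → δ i y ≤ δ i x + 1 := by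
    intro i x y hs
    by_cases hlt : δ i x < 2 * t
    · obtain ⟨b, hb, hbw⟩ := hδs i x hlt
      apply Nat.find_min' (hex i y)
      right
      refine ⟨(y⁻¹ * x) * b, sp_mul_left hs hb, ?_⟩
      have e1 : y * ((y⁻¹ * x) * b) = x * b := by group
      rw [e1]
      exact hbw
    · have := hδle i y
      omega
  -- the walls
  set Wl : ℕ → Set G := fun i => {x | ∃ r : Fin t, x ∈ V r ∧ δ i x = 2 * (r : ℕ) + 1} with hWl
  have hWb : ∀ i, Bdd (S : Set G) (Wl i) E1 := by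
    rintro i x ⟨r, hxr, hxd⟩ y hxy
    refine hVb r x hxr y ((hxy.strengthen (R := fun z => z ∈ V r ∧ δ i z = 2 * (r : ℕ) + 1)
      ⟨hxr, hxd⟩ ?_).1.mono le_rfl fun b hb => hb.2.1)
    rintro a b _ ⟨_, had⟩ hs ⟨r', hbr', hbd'⟩
    have hab : a⁻¹ * b ∈ S1 := hSS1 _ (Finset.mem_union_left _ hs)
    have hba : b⁻¹ * a ∈ S1 := by
      have := hSi _ (Finset.mem_union_left _ hs)
      have e1 : (a⁻¹ * b)⁻¹ = b⁻¹ * a := by group
      rwa [e1] at this
    have h1 := hδL i a b hba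
    have h2 := hδL i b a hab
    have h3 : r' = r := by
      apply Fin.ext
      omega
    rw [h3] at hbr' hbd'
    exact ⟨hbr', hbd'⟩
  refine ⟨fun x => if hx : ∃ i, i ≤ n ∧ x ∈ Wl i then Nat.find hx + 1 else 0, E ∪ E1, ?_, ?_, ?_⟩
  · intro x
    beta_reduce
    split_ifs with hx
    · have := (Nat.find_spec hx).1
      omega
    · exact Nat.zero_le _
  · intro x hx y hxy
    have hno : ∀ z, z ∈ {x | (if hx : ∃ i, i ≤ n ∧ x ∈ Wl i then Nat.find hx + 1 else 0) = 0} →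
        ∀ i ≤ n, z ∉ Wl i := by
      intro z hz i hi hzi
      have hz' : (if hx : ∃ i, i ≤ n ∧ z ∈ Wl i then Nat.find hx + 1 else 0) = 0 := hz
      rw [dif_pos ⟨i, hi, hzi⟩] at hz'
      omega
    obtain ⟨r, hr⟩ := hcov x
    set i₀ := w x with hi₀
    have hpos : 0 < t := Nat.lt_of_le_of_lt (Nat.zero_le _) r.2
    have hx0 : δ i₀ x = 0 := by
      have h0 : δ i₀ x ≤ 0 := by
        apply Nat.find_min' (hex i₀ x)
        right
        refine ⟨1, by rw [Sp]; exact Finset.mem_singleton_self _, ?_⟩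
        rw [mul_one]
      omega
    have hin : ∀ z, δ i₀ z < 2 * t → z ∈ {x | ∃ b ∈ Sp S1 (2 * t), w (x * b) = i₀} := by
      intro z hz
      obtain ⟨b, hb, hbw⟩ := hδs i₀ z hz
      exact ⟨b, sp_mono h1S hz.le hb, hbw⟩
    have hrt := r.2
    have key := hxy.rec' (R := fun z => δ i₀ z ≤ 2 * (r : ℕ) ∧ x⁻¹ * z ∈ H ∧
        Chain (T : Set G) (fun b => b ∈ {x | ∃ b ∈ Sp S1 (2 * t), w (x * b) = i₀}) x z)
      ⟨by omega, by rw [inv_mul_cancel]; exact H.one_mem, Chain.refl _ _ _⟩ (by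
        rintro a b _ ⟨ha1, ha2, ha3⟩ hs hb
        have haE : x⁻¹ * a ∈ E := hwE i₀ x (hin x (by omega)) a ha3
        have habH : a⁻¹ * b ∈ H := hH _ (hSS1 _ (Finset.mem_union_right _ hs))
        have hxbH : x⁻¹ * b ∈ H := by
          have e1 : x⁻¹ * b = (x⁻¹ * a) * (a⁻¹ * b) := by group
          rw [e1]
          exact H.mul_mem ha2 habH
        have hbV : b ∈ V r := by
          refine ⟨x⁻¹ * b, Finset.mem_filter.2 ⟨Finset.mem_insert_of_mem
            (Finset.mem_image₂.2 ⟨x⁻¹ * a, haE, a⁻¹ * b, hs, by group⟩), hxbH⟩, ?_⟩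
          have e1 : b * (x⁻¹ * b)⁻¹ = x := by group
          rw [e1]
          exact hr
        have hbne : δ i₀ b ≠ 2 * (r : ℕ) + 1 := by
          intro hb'
          exact hno b hb i₀ (hwn x) ⟨r, hbV, hb'⟩
        have hba : b⁻¹ * a ∈ S1 := by
          have := hSi _ (Finset.mem_union_right S hs)
          have e1 : (a⁻¹ * b)⁻¹ = b⁻¹ * a := by group
          rwa [e1] at this
        have h1 := hδL i₀ a b hba
        exact ⟨by omega, hxbH, ha3.step hs (hin b (by omega))⟩)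
    exact Finset.mem_union_left _ (hwE i₀ x (hin x (by omega)) y key.2.2)
  · intro i hi x hx y hxy
    have hlev : ∀ z, z ∈ {x | (if hx : ∃ i, i ≤ n ∧ x ∈ Wl i then Nat.find hx + 1 else 0) = i} →
        z ∈ Wl (i - 1) := by
      intro z hz
      have hz' : (if hx : ∃ i, i ≤ n ∧ z ∈ Wl i then Nat.find hx + 1 else 0) = i := hz
      split_ifs at hz' with hzz
      · have h1 := (Nat.find_spec hzz).2
        have h2 : Nat.find hzz = i - 1 := by omega
        rw [h2] at h1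
        exact h1
      · omega
    exact Finset.mem_union_right _ (hWb (i - 1) x (hlev x hx) y (hxy.mono le_rfl fun b hb =>
      hlev b hb))

end Pool.Agent.Helper80.PP
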